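import Pool.Agent.Helper58.PB.StB
import Pool.Agent.Helper28.PC.N3

/-!
# Project PB, module DVB: the divisor bound (from `Pool.Agent.Helper28.PC.N3`)
-/

set_option autoImplicit false

namespace Pool.Agent.Helper89.PB

open Pool.Agent.Helper58.PB

theorem hDvb : StDvb := fun ε hε =>
  let ⟨C, h1, h2⟩ := Pool.Agent.Helper28.PC.N3 ε hε
  ⟨C, h1, h2⟩

end Pool.Agent.Helper89.PB
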